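import Pool.Agent.Y234.EM.Stm

/-!
# Project EM: families for powers
-/

set_option autoImplicit false

namespace Pool.Agent.Y232.EM

open Pool.Agent.H826R3.SM Pool.Agent.Y234.EM

theorem pow : S_POW := by
  intro k A _ _ _ D n hA
  induction n with
  | zero =>
    rw [pow_zero]
    refine fam_self.of_surjective (Algebra.ofId k (Pow k A 0)) ?_
    rw [← AlgHom.range_eq_top]
    exact pow_eq_top _ (fun i => i.elim0)
  | succ n ih =>
    rw [pow_succ]
    refine Fam.join ih hA (powLift fun i : Fin n => sg k A i.castSucc) (sg k A (Fin.last n)) ?_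
    refine pow_eq_top _ fun i x => ?_
    refine Fin.lastCases ?_ (fun i => ?_) i
    · exact (le_sup_right : (sg k A (Fin.last n)).range ≤
        (powLift fun i : Fin n => sg k A i.castSucc).range ⊔ _) ⟨x, rfl⟩
    · exact (le_sup_left : (powLift fun i : Fin n => sg k A i.castSucc).range ≤
        _ ⊔ (sg k A (Fin.last n)).range) ⟨sg k A i x, powLift_single _ i x⟩

end Pool.Agent.Y232.EM
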